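import Pool.Agent.H31.MP.Targets1

/-!
# MP_76b9e7_nt, row BVO (board mtp): the theorem of Bombieri and Vinogradov for the nontrivial
characters
-/

set_option autoImplicit false

open Finset Real ArithmeticFunction
open scoped Nat

namespace Pool.Agent.H79.MP

open Pool.Agent.H31.MP
open Pool.Agent.H30.BV (NX wx WX SC SP TX cv PC Sf)

theorem SP_nonneg (X : ℝ) (q : ℕ) : 0 ≤ SP X q := by
  unfold SP
  refine finsum_nonneg fun χ => ?_
  split_ifs
  · exact norm_nonneg _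
  · exact le_rfl

theorem log_pow_le (c : ℝ) (hc : 0 < c) (n : ℕ) (δ : ℝ) (hδ : 0 < δ) :
    ∃ X₀ : ℝ, ∀ X : ℝ, X₀ ≤ X → c * Real.log X ^ n ≤ X ^ δ := by
  have h1 := (isLittleO_log_rpow_rpow_atTop (n : ℝ) hδ).bound (inv_pos.2 hc)
  obtain ⟨X₀, hX₀⟩ := Filter.eventually_atTop.1 h1
  refine ⟨max X₀ 1, fun X hX => ?_⟩
  have h2 := hX₀ X ((le_max_left _ _).trans hX)
  have h3 : 1 ≤ X := (le_max_right _ _).trans hX
  have h4 : 0 ≤ X ^ δ := Real.rpow_nonneg (by linarith) _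
  rw [Real.norm_eq_abs, Real.norm_eq_abs, abs_of_nonneg h4, Real.rpow_natCast] at h2
  have h5 := (le_abs_self _).trans h2
  rw [inv_mul_eq_div, le_div_iff₀ hc] at h5
  linarith

theorem conv (D : ℕ) (F : ℕ → ℝ) (hF : ∀ q, 0 ≤ F q) :
    ∑ d ∈ Icc 1 D, (∑ q ∈ d.divisors.erase 1, F q) / (d.totient : ℝ) ≤
      (∑ e ∈ Icc 1 D, 1 / (e.totient : ℝ)) * ∑ q ∈ Icc 2 D, F q / (q.totient : ℝ) := by
  classical
  have e1 : ∑ d ∈ Icc 1 D, (∑ q ∈ d.divisors.erase 1, F q) / (d.totient : ℝ) =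
      ∑ d ∈ Icc 1 D, ∑ q ∈ d.divisors.erase 1, F q / (d.totient : ℝ) :=
    Finset.sum_congr rfl fun d _ => Finset.sum_div _ _ _
  have e2 : ∑ d ∈ Icc 1 D, ∑ q ∈ d.divisors.erase 1, F q / (d.totient : ℝ) =
      ∑ q ∈ Icc 2 D, ∑ d ∈ (Icc 1 D).filter (fun d => q ∣ d), F q / (d.totient : ℝ) := by
    refine Finset.sum_comm' fun d q => ?_
    rw [mem_Icc, Finset.mem_erase, Nat.mem_divisors, mem_filter, mem_Icc, mem_Icc]
    constructor
    · rintro ⟨⟨h1, h2⟩, h3, h4, h5⟩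
      have h6 : q ≤ d := Nat.le_of_dvd h1 h4
      have h7 : 0 < q := Nat.pos_of_dvd_of_pos h4 h1
      exact ⟨⟨⟨h1, h2⟩, h4⟩, by omega, by omega⟩
    · rintro ⟨⟨⟨h1, h2⟩, h4⟩, h5, h6⟩
      exact ⟨⟨h1, h2⟩, by omega, h4, by omega⟩
  rw [e1, e2, mul_comm, Finset.sum_mul]
  refine Finset.sum_le_sum fun q hq => ?_
  rw [mem_Icc] at hq
  have hq0 : 0 < q := by omega
  have hinj : Function.Injective (fun e : ℕ => q * e) := fun a b h =>
    Nat.eq_of_mul_eq_mul_left hq0 h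
  calc ∑ d ∈ (Icc 1 D).filter (fun d => q ∣ d), F q / (d.totient : ℝ)
      ≤ ∑ d ∈ (Icc 1 D).image (fun e => q * e), F q / (d.totient : ℝ) := by
        refine Finset.sum_le_sum_of_subset_of_nonneg (fun d hd => ?_) fun d _ _ =>
          div_nonneg (hF q) (Nat.cast_nonneg _)
        rw [mem_filter, mem_Icc] at hd
        obtain ⟨⟨h1, h2⟩, e, rfl⟩ := hd
        rw [mem_image]
        refine ⟨e, mem_Icc.2 ⟨Nat.pos_of_ne_zero fun h => ?_, ?_⟩, rfl⟩
        · rw [h, mul_zero] at h1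
          omega
        · exact (Nat.le_mul_of_pos_left e hq0).trans h2
    _ = ∑ e ∈ Icc 1 D, F q / ((q * e).totient : ℝ) := Finset.sum_image fun a _ b _ h => hinj h
    _ ≤ ∑ e ∈ Icc 1 D, F q / (q.totient : ℝ) * (1 / (e.totient : ℝ)) := by
        refine Finset.sum_le_sum fun e he => ?_
        rw [mem_Icc] at he
        have h1 : 0 < q.totient := Nat.totient_pos.2 hq0
        have h2 : 0 < e.totient := Nat.totient_pos.2 (by omega)
        have h3 : (q.totient : ℝ) * e.totient ≤ ((q * e).totient : ℝ) := by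
          exact_mod_cast Nat.totient_super_multiplicative q e
        have h4 : (0 : ℝ) < q.totient := by exact_mod_cast h1
        have h5 : (0 : ℝ) < e.totient := by exact_mod_cast h2
        rw [div_mul_div_comm, mul_one]
        exact div_le_div_of_nonneg_left (hF q) (mul_pos h4 h5) h3
    _ = _ := by rw [Finset.mul_sum]

theorem pf_BVO (hDH : T_DH) (hSH : T_SH) (hS1 : Pool.Agent.H30.BV.T_S1) (hDVK : T_DVK) :
    T_BVO := by
  intro ε A hε
  obtain ⟨C, hC, hDH'⟩ := hDH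
  obtain ⟨C3, B3, hC3, hDVK'⟩ := hDVK 1
  obtain ⟨X1, hX1⟩ := hSH (A + B3 + 1) (A + B3 + 7)
  have hδ : 0 < min ε (1 / 20) := lt_min hε (by norm_num)
  obtain ⟨X2, hX2⟩ := log_pow_le (64 * C3) (by positivity) (A + B3 + 2) (min ε (1 / 20)) hδ
  obtain ⟨X3, hX3⟩ := log_pow_le (8 * (C * C3)) (by positivity) (A + B3 + 6) (min ε (1 / 20)) hδ
  obtain ⟨W, hW⟩ : ∃ W, W = 1 + 8 * C3 + 16 * (C * C3) := ⟨_, rfl⟩
  refine ⟨max (max X1 X2) (max X3 (max 4 (Real.exp W))), fun X hX D hD => ?_⟩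
  simp only [max_le_iff] at hX
  obtain ⟨⟨hXX1, hXX2⟩, hXX3, hX4, hXe⟩ := hX
  have hX0 : 0 < X := by linarith
  have hXone : 1 ≤ X := by linarith
  have hq1 := hX1 X hXX1
  have hq2 := hX2 X hXX2
  have hq3 := hX3 X hXX3
  obtain ⟨L, hL⟩ : ∃ L, L = Real.log X := ⟨_, rfl⟩
  rw [← hL] at hq1 hq2 hq3
  have hWL : W ≤ L := by
    rw [hL, Real.le_log_iff_exp_le hX0]
    exact hXe
  have hCC : 0 < C * C3 := mul_pos hC hC3
  have hL1 : 1 ≤ L := by linarith
  have hL0 : 0 < L := by linarith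
  have hLC3 : 8 * C3 ≤ L := by linarith
  have hLCC : 16 * (C * C3) ≤ L := by linarith
  rw [← hL]
  -- sizes
  have hsqrt : X ^ (1 / 2 : ℝ) = √X := (Real.sqrt_eq_rpow X).symm
  have hDs : (D : ℝ) ≤ √X := by
    refine hD.trans ?_
    rw [← hsqrt]
    exact Real.rpow_le_rpow_of_exponent_le hXone (by linarith)
  have hss : √X * √X = X := Real.mul_self_sqrt hX0.le
  have hD2 : (D : ℝ) ^ 2 ≤ X := by
    calc (D : ℝ) ^ 2 ≤ √X ^ 2 := pow_le_pow_left₀ (Nat.cast_nonneg _) hDs 2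
      _ = X := by rw [sq, hss]
  have hsX : √X ≤ X := by
    have h1 : 1 ≤ √X := Real.one_le_sqrt.2 hXone
    nlinarith
  have hDX : (D : ℝ) ≤ X := hDs.trans hsX
  have hmin1 : X ^ (min ε (1 / 20)) ≤ √X := by
    rw [← hsqrt]
    exact Real.rpow_le_rpow_of_exponent_le hXone ((min_le_right _ _).trans (by norm_num))
  have hmin2 : X ^ (min ε (1 / 20)) * X ^ (19 / 20 : ℝ) ≤ X := by
    calc X ^ (min ε (1 / 20)) * X ^ (19 / 20 : ℝ) ≤ X ^ (1 / 20 : ℝ) * X ^ (19 / 20 : ℝ) := by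
          refine mul_le_mul_of_nonneg_right ?_ (Real.rpow_nonneg hX0.le _)
          exact Real.rpow_le_rpow_of_exponent_le hXone (min_le_right _ _)
      _ = X := by
          rw [← Real.rpow_add hX0]
          norm_num
  have hmin3 : X ^ (min ε (1 / 20)) * ((D : ℝ) * √X) ≤ X := by
    calc X ^ (min ε (1 / 20)) * ((D : ℝ) * √X) ≤ X ^ ε * (X ^ (1 / 2 - ε) * X ^ (1 / 2 : ℝ)) := by
          rw [hsqrt]
          refine mul_le_mul (Real.rpow_le_rpow_of_exponent_le hXone (min_le_left _ _)) ?_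
            (by positivity) (Real.rpow_nonneg hX0.le _)
          exact mul_le_mul_of_nonneg_right hD (Real.sqrt_nonneg _)
      _ = X := by
          rw [← Real.rpow_add hX0, ← Real.rpow_add hX0]
          have : ε + (1 / 2 - ε + 1 / 2) = (1 : ℝ) := by ring
          rw [this, Real.rpow_one]
  -- the sum of 1/φ
  obtain ⟨S, hS⟩ : ∃ S, S = ∑ e ∈ Icc 1 D, 1 / (e.totient : ℝ) := ⟨_, rfl⟩
  have hS0 : 0 ≤ S := by
    rw [hS]
    exact Finset.sum_nonneg fun e _ => by positivity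
  have hSle : S ≤ C3 * L ^ B3 := by
    have h1 := hDVK' (max D 2) (le_max_right _ _)
    have h2 : S ≤ ∑ d ∈ Icc 1 (max D 2), ((1 : ℕ) : ℝ) ^ om d / (d.totient : ℝ) := by
      rw [hS]
      refine (Finset.sum_le_sum_of_subset_of_nonneg (Finset.Icc_subset_Icc_right
        (le_max_left D 2)) fun d _ _ => by positivity).trans (le_of_eq ?_)
      refine Finset.sum_congr rfl fun d _ => ?_
      rw [Nat.cast_one, one_pow]
    refine (h2.trans h1).trans ?_
    have h3 : Real.log ((max D 2 : ℕ) : ℝ) ≤ L := by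
      rw [hL]
      apply Real.log_le_log
      · have : 0 < max D 2 := lt_of_lt_of_le (by norm_num) (le_max_right D 2)
        exact_mod_cast this
      · rw [Nat.cast_max]
        exact max_le hDX (by norm_num; linarith)
    have h4 : 0 ≤ Real.log ((max D 2 : ℕ) : ℝ) := Real.log_natCast_nonneg _
    gcongr
  -- the first part
  have hp1 : ∑ d ∈ Icc 1 D, 8 * d * L ^ 2 / (d.totient : ℝ) ≤ X / L ^ A / 8 := by
    calc ∑ d ∈ Icc 1 D, 8 * d * L ^ 2 / (d.totient : ℝ)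
        ≤ ∑ d ∈ Icc 1 D, 8 * D * L ^ 2 * (1 / (d.totient : ℝ)) := by
          refine Finset.sum_le_sum fun d hd => ?_
          rw [mem_Icc] at hd
          have h1 : (d : ℝ) ≤ D := by exact_mod_cast hd.2
          rw [mul_one_div]
          gcongr
      _ = 8 * D * L ^ 2 * S := by rw [← Finset.mul_sum, hS]
      _ ≤ 8 * √X * L ^ 2 * (C3 * L ^ B3) := by gcongr
      _ ≤ X / L ^ A / 8 := by
          rw [div_div, le_div_iff₀ (by positivity)]
          calc 8 * √X * L ^ 2 * (C3 * L ^ B3) * (L ^ A * 8) =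
                √X * (64 * C3 * L ^ (A + B3 + 2)) := by ring
            _ ≤ √X * √X := mul_le_mul_of_nonneg_left (hq2.trans hmin1) (Real.sqrt_nonneg _)
            _ = X := hss
  -- the second part
  obtain ⟨Q, hQ⟩ : ∃ Q, Q = ⌊L ^ (A + B3 + 7)⌋₊ := ⟨_, rfl⟩
  have hT1 : 1 ≤ L ^ (A + B3 + 7) := one_le_pow₀ hL1
  have hQ1 : 1 ≤ Q := by
    rw [hQ]
    exact Nat.le_floor (by simpa using hT1)
  have hQle : (Q : ℝ) ≤ L ^ (A + B3 + 7) := by
    rw [hQ]
    exact Nat.floor_le (by positivity)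
  have hQR : (1 : ℝ) ≤ Q := by exact_mod_cast hQ1
  have hQL : L ^ (A + B3 + 7) / 2 ≤ Q := by
    have h1 : L ^ (A + B3 + 7) < Q + 1 := by
      rw [hQ]
      exact Nat.lt_floor_add_one _
    linarith
  have hsmall := hq1 Q hQle
  have hlarge := hDH' X Q D (by linarith) hQ1 hD2
  rw [← hL] at hlarge
  have hXQ : X / Q ≤ 2 * X / L ^ (A + B3 + 7) := by
    have h3 : (0 : ℝ) < L ^ (A + B3 + 7) / 2 := by positivity
    calc X / Q ≤ X / (L ^ (A + B3 + 7) / 2) := by gcongr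
      _ = 2 * X / L ^ (A + B3 + 7) := by field_simp
  have hsplit : ∑ q ∈ Icc 2 D, SP X q / (q.totient : ℝ) ≤
      ∑ q ∈ Icc 2 Q, SP X q / (q.totient : ℝ) + ∑ q ∈ Ioc Q D, SP X q / (q.totient : ℝ) := by
    have hnn : ∀ q : ℕ, 0 ≤ SP X q / (q.totient : ℝ) := fun q =>
      div_nonneg (SP_nonneg X q) (Nat.cast_nonneg _)
    have hdisj : Disjoint (Icc 2 Q) (Ioc Q D) := by
      rw [Finset.disjoint_left]
      intro q h1 h2
      rw [mem_Icc] at h1
      rw [mem_Ioc] at h2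
      omega
    rw [← Finset.sum_union hdisj]
    refine Finset.sum_le_sum_of_subset_of_nonneg (fun q hq => ?_) fun q _ _ => hnn q
    rw [mem_Icc] at hq
    rw [mem_union, mem_Icc, mem_Ioc]
    omega
  have hp2 : ∑ d ∈ Icc 1 D, (∑ q ∈ d.divisors.erase 1, SP X q) / (d.totient : ℝ) ≤
      X / L ^ A / 2 := by
    have h0 : 0 ≤ ∑ q ∈ Icc 2 D, SP X q / (q.totient : ℝ) :=
      Finset.sum_nonneg fun q _ => div_nonneg (SP_nonneg X q) (Nat.cast_nonneg _)
    have h1 := conv D (SP X) (SP_nonneg X)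
    rw [← hS] at h1
    have h2 : ∑ q ∈ Icc 2 D, SP X q / (q.totient : ℝ) ≤ X / L ^ (A + B3 + 1) +
        C * L ^ 6 * (2 * X / L ^ (A + B3 + 7) + X ^ (19 / 20 : ℝ) + D * √X) := by
      refine hsplit.trans (add_le_add hsmall (hlarge.trans ?_))
      gcongr
    have t1 : C3 * L ^ B3 * (X / L ^ (A + B3 + 1)) ≤ X / L ^ A / 8 := by
      have e : C3 * L ^ B3 * (X / L ^ (A + B3 + 1)) = C3 * X / (L ^ A * L) := by
        rw [show L ^ (A + B3 + 1) = L ^ A * L ^ B3 * L by ring]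
        field_simp
      rw [e, div_div, div_le_div_iff₀ (by positivity) (by positivity)]
      calc C3 * X * (L ^ A * 8) = 8 * C3 * (X * L ^ A) := by ring
        _ ≤ L * (X * L ^ A) := mul_le_mul_of_nonneg_right hLC3 (by positivity)
        _ = X * (L ^ A * L) := by ring
    have t2 : C3 * L ^ B3 * (C * L ^ 6 * (2 * X / L ^ (A + B3 + 7))) ≤ X / L ^ A / 8 := by
      have e : C3 * L ^ B3 * (C * L ^ 6 * (2 * X / L ^ (A + B3 + 7))) =
          2 * (C * C3) * X / (L ^ A * L) := by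
        rw [show L ^ (A + B3 + 7) = L ^ A * L ^ B3 * L ^ 6 * L by ring]
        field_simp
      rw [e, div_div, div_le_div_iff₀ (by positivity) (by positivity)]
      calc 2 * (C * C3) * X * (L ^ A * 8) = 16 * (C * C3) * (X * L ^ A) := by ring
        _ ≤ L * (X * L ^ A) := mul_le_mul_of_nonneg_right hLCC (by positivity)
        _ = X * (L ^ A * L) := by ring
    have t3 : C3 * L ^ B3 * (C * L ^ 6 * X ^ (19 / 20 : ℝ)) ≤ X / L ^ A / 8 := by
      rw [div_div, le_div_iff₀ (by positivity)]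
      calc C3 * L ^ B3 * (C * L ^ 6 * X ^ (19 / 20 : ℝ)) * (L ^ A * 8) =
            8 * (C * C3) * L ^ (A + B3 + 6) * X ^ (19 / 20 : ℝ) := by ring
        _ ≤ X ^ (min ε (1 / 20)) * X ^ (19 / 20 : ℝ) :=
            mul_le_mul_of_nonneg_right hq3 (Real.rpow_nonneg hX0.le _)
        _ ≤ X := hmin2
    have t4 : C3 * L ^ B3 * (C * L ^ 6 * (D * √X)) ≤ X / L ^ A / 8 := by
      rw [div_div, le_div_iff₀ (by positivity)]
      calc C3 * L ^ B3 * (C * L ^ 6 * (D * √X)) * (L ^ A * 8) =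
            8 * (C * C3) * L ^ (A + B3 + 6) * (D * √X) := by ring
        _ ≤ X ^ (min ε (1 / 20)) * (D * √X) :=
            mul_le_mul_of_nonneg_right hq3 (by positivity)
        _ ≤ X := hmin3
    calc ∑ d ∈ Icc 1 D, (∑ q ∈ d.divisors.erase 1, SP X q) / (d.totient : ℝ)
        ≤ S * ∑ q ∈ Icc 2 D, SP X q / (q.totient : ℝ) := h1
      _ ≤ C3 * L ^ B3 * (X / L ^ (A + B3 + 1) +
          C * L ^ 6 * (2 * X / L ^ (A + B3 + 7) + X ^ (19 / 20 : ℝ) + D * √X)) :=
          mul_le_mul hSle h2 h0 (by positivity)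
      _ = C3 * L ^ B3 * (X / L ^ (A + B3 + 1)) +
          C3 * L ^ B3 * (C * L ^ 6 * (2 * X / L ^ (A + B3 + 7))) +
          C3 * L ^ B3 * (C * L ^ 6 * X ^ (19 / 20 : ℝ)) +
          C3 * L ^ B3 * (C * L ^ 6 * (D * √X)) := by ring
      _ ≤ X / L ^ A / 8 + X / L ^ A / 8 + X / L ^ A / 8 + X / L ^ A / 8 := by
          linarith
      _ = X / L ^ A / 2 := by ring
  calc ∑ d ∈ Icc 1 D, SC X d / (d.totient : ℝ)
      ≤ ∑ d ∈ Icc 1 D, (8 * d * L ^ 2 / (d.totient : ℝ) +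
          (∑ q ∈ d.divisors.erase 1, SP X q) / (d.totient : ℝ)) := by
        refine Finset.sum_le_sum fun d hd => ?_
        rw [mem_Icc] at hd
        have h1 : (d : ℝ) ≤ D := by exact_mod_cast hd.2
        have h2 := hS1 X d (by linarith) hd.1 (h1.trans hDX)
        rw [← hL] at h2
        rw [← add_div]
        exact div_le_div_of_nonneg_right h2 (Nat.cast_nonneg _)
    _ = ∑ d ∈ Icc 1 D, 8 * d * L ^ 2 / (d.totient : ℝ) +
        ∑ d ∈ Icc 1 D, (∑ q ∈ d.divisors.erase 1, SP X q) / (d.totient : ℝ) :=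
        Finset.sum_add_distrib
    _ ≤ X / L ^ A / 8 + X / L ^ A / 2 := add_le_add hp1 hp2
    _ ≤ X / L ^ A := by
        have : 0 ≤ X / L ^ A := by positivity
        linarith

end Pool.Agent.H79.MP
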