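import Pool.Agent.H31.MP.Targets4

/-!
# MP_76b9e7_nt, row MX (board mtp): the measure
-/

set_option autoImplicit false

open Finset Real ArithmeticFunction
open scoped Nat

namespace Pool.Agent.H79.MP

open Pool.Agent.H31.MP

theorem pf_MX (hBA : T_BA) (hM6 : T_M6) (hM1 : T_M1) (hM2 : T_M2) : T_MX := by
  intro M κ hM hκ hκ8
  obtain ⟨k, y₀, δ, c, C, hk, hy₀, hδ, hδ1, hc, hC, hBA⟩ := hBA M κ hM hκ hκ8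
  obtain ⟨C₃, Z6, hC₃, hM6⟩ := hM6 k y₀ δ c C κ hk hy₀ hδ hδ1 hc hC hκ hκ8
  obtain ⟨Z1, hM1⟩ := hM1 κ hκ hκ8
  refine ⟨C₃, hC₃, fun t ht => ?_⟩
  obtain ⟨Zb, hBA⟩ := hBA t ht
  refine ⟨max Zb (max Z6 Z1), fun Z hZ => ?_⟩
  simp only [max_le_iff] at hZ
  obtain ⟨hZb, hZ6, hZ1⟩ := hZ
  obtain ⟨l, hl⟩ := hBA Z hZb
  obtain ⟨hT, h6⟩ := hM6 Z hZ6 l fun h hh => ⟨(hl h hh).1, (hl h hh).2.1⟩
  obtain ⟨w0, v0, w1, vw, vM, vs⟩ := hM1 Z M δ k y₀ l hZ1 hT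
    fun h hh => ⟨(hl h hh).2.2.1, (hl h hh).2.2.2.1⟩
  refine ⟨wm Z y₀ δ κ l, vm Z y₀ δ κ l, w0, v0, w1, vw, vM, vs, ?_, ?_, h6⟩
  · intro a m h1 h2 h3
    exact (hM2 Z _ δ κ k y₀ l (Ico a (a + m)) ∅ hT).1
      fun h hh => (hl h hh).2.2.2.2.1 a m h1 h2 h3
  · intro a m b m' h1 h2 h3 h4 h5 h6'
    exact (hM2 Z _ δ κ k y₀ l (Ico a (a + m)) (Ico b (b + m')) hT).2
      fun h hh => (hl h hh).2.2.2.2.2 a m b m' h1 h2 h3 h4 h5 h6'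

end Pool.Agent.H79.MP
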