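import Pool.Agent.H31.MP.Targets2

/-!
# MP_76b9e7_nt, row QK (board mtp): quotients of the levels for densities up to `K / p`
-/

set_option autoImplicit false

open Finset Real ArithmeticFunction
open scoped Nat

namespace Pool.Agent.H79.MP

open Pool.Agent.H31.MP
open Pool.Agent.H30.BV (PZ lv nl qj)

theorem pf_QK (hBZ : T_BZ) (hLV : Pool.Agent.H30.BV.T_LV) (hLJ : Pool.Agent.H30.BV.T_LJ) :
    T_QK := by
  obtain ⟨L₀, hL₀, hLJ⟩ := hLJ
  intro K η hη
  obtain ⟨L, hLdef⟩ : ∃ L : ℝ, L = K / 3 * L₀ := ⟨_, rfl⟩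
  have hL : 0 ≤ L := by rw [hLdef]; positivity
  obtain ⟨b, hb⟩ := hBZ L (Real.exp (-(2 * L))) η hL (Real.exp_pos _) hη
  refine ⟨b, fun z P g hz hP hg => ?_⟩
  obtain ⟨-, hlv, -, -⟩ := hLV z 2 hz
  refine le_trans (Finset.sum_le_sum fun j _ => ?_) (hb (nl z))
  set Pj := P.filter (fun p => lv z p = j) with hPj
  have hz0 : 0 ≤ z := by linarith
  set y := z ^ ((1 / 2 : ℝ) ^ (j + 1)) with hy
  have hy1 : 1 ≤ y := Real.one_le_rpow (by linarith) (by positivity)
  have hy2 : y ^ 2 = z ^ ((1 / 2 : ℝ) ^ j) := by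
    rw [hy, ← Real.rpow_natCast, ← Real.rpow_mul hz0]
    congr 1
    push_cast
    ring
  have hsub : Pj ⊆ (Icc 3 ⌊y ^ 2⌋₊).filter (fun p : ℕ => p.Prime ∧ y < (p : ℝ)) := by
    intro p hp
    rw [hPj, mem_filter] at hp
    obtain ⟨hp1, hp2⟩ := hp
    have h := hlv p (hP hp1)
    rw [hp2] at h
    have hp3 := hP hp1
    unfold PZ at hp3
    rw [mem_filter, mem_Icc] at hp3
    rw [mem_filter, mem_Icc]
    refine ⟨⟨hp3.1.1, Nat.le_floor ?_⟩, hp3.2.1, h.1⟩
    rw [hy2]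
    exact h.2
  have hS : ∑ p ∈ Pj, g p ≤ L := by
    calc ∑ p ∈ Pj, g p ≤ ∑ p ∈ Pj, K / 3 * (3 / (p : ℝ)) := by
          refine Finset.sum_le_sum fun p hp => (hg p (mem_of_mem_filter p hp)).2.1.trans
            (le_of_eq ?_)
          ring
      _ ≤ ∑ p ∈ (Icc 3 ⌊y ^ 2⌋₊).filter (fun p : ℕ => p.Prime ∧ y < (p : ℝ)),
          K / 3 * (3 / (p : ℝ)) :=
          Finset.sum_le_sum_of_subset_of_nonneg hsub fun p _ _ => by positivity
      _ = K / 3 * ∑ p ∈ (Icc 3 ⌊y ^ 2⌋₊).filter (fun p : ℕ => p.Prime ∧ y < (p : ℝ)),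
          3 / (p : ℝ) := by rw [Finset.mul_sum]
      _ ≤ K / 3 * L₀ := mul_le_mul_of_nonneg_left (hLJ y hy1) (by positivity)
      _ = L := hLdef.symm
  have hS0 : 0 ≤ ∑ p ∈ Pj, g p :=
    Finset.sum_nonneg fun p hp => (hg p (mem_of_mem_filter p hp)).1
  have hV : Real.exp (-(2 * L)) ≤ ∏ p ∈ Pj, (1 - g p) := by
    calc Real.exp (-(2 * L)) ≤ Real.exp (∑ p ∈ Pj, (-(2 * g p))) := by
          apply Real.exp_le_exp.mpr
          rw [Finset.sum_neg_distrib, ← Finset.mul_sum]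
          linarith
      _ = ∏ p ∈ Pj, Real.exp (-(2 * g p)) := Real.exp_sum _ _
      _ ≤ ∏ p ∈ Pj, (1 - g p) := by
          apply Finset.prod_le_prod
          · intro p _
            exact (Real.exp_pos _).le
          · intro p hp
            obtain ⟨h0, -, h2⟩ := hg p (mem_of_mem_filter p hp)
            have h1 : 0 < 1 - g p := by linarith
            have h4 := Real.one_sub_inv_le_log_of_pos h1
            have h3 : (1 - g p)⁻¹ ≤ 1 + 2 * g p := by
              rw [inv_eq_one_div, div_le_iff₀ h1]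
              nlinarith
            calc Real.exp (-(2 * g p)) ≤ Real.exp (Real.log (1 - g p)) :=
                  Real.exp_le_exp.mpr (by linarith)
              _ = 1 - g p := Real.exp_log h1
  unfold Pool.Agent.H30.BV.qj
  exact div_le_div₀ (pow_nonneg hL _) (pow_le_pow_left₀ hS0 hS _)
    (mul_pos (by positivity) (Real.exp_pos _)) (mul_le_mul_of_nonneg_left hV (by positivity))

end Pool.Agent.H79.MP
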